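import Pool.Agent.P.MP_ebe746_co.ClNec2
import Pool.Agent.P.MP_ebe746_co.DgNec
import Pool.Agent.P.MP_ebe746_co.DgPos

namespace Pool.Agent.Results.MP_ebe746_co.DegreeDichotomy
open Pool.Agent.P.MP_ebe746_co.Cl Pool.Agent.P.MP_ebe746_co.Dg

lemma bern (a k : ℕ) : a ^ k * (a + k) ≤ a * (a + 1) ^ k := by
  induction k with
  | zero => simp
  | succ k ih =>
    calc a ^ (k + 1) * (a + (k + 1)) = a ^ k * (a * (a + k + 1)) := by ring
      _ ≤ a ^ k * ((a + k) * (a + 1)) := Nat.mul_le_mul_left _ (by nlinarith)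
      _ = a ^ k * (a + k) * (a + 1) := by ring
      _ ≤ a * (a + 1) ^ k * (a + 1) := Nat.mul_le_mul_right _ ih
      _ = a * (a + 1) ^ (k + 1) := by ring

theorem result (h s : ℕ∞) (hh : 2 ≤ h) (hs : 2 ≤ s) :
    List.TFAE [h ≤ s,
      ∀ p p' : ℕ, 2 ≤ p → p ≤ p' →
        ∀ (n : ℕ) (G : SimpleGraph (Fin n)), HasRep h s p G → HasRep h s p' G,
      ∃ p : ℕ, 4 ≤ p ∧ (s ≠ ⊤ → (s - 1) ^ p < s ^ (p - 1)) ∧
        ∀ (n : ℕ) (G : SimpleGraph (Fin n)), HasRep h s p G → HasRep h s (p + 1) G] := by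
  tfae_have 1 → 2 := by
    intro h1 p p' hp hpp n G hG
    induction p', hpp using Nat.le_induction with
    | base => exact hG
    | succ q hq ih => exact incl_succ hh h1 (by omega) ih
  tfae_have 2 → 3 := by
    intro h2
    induction s using ENat.recTopCoe with
    | top => exact ⟨4, le_rfl, fun h => absurd rfl h, h2 4 5 (by omega) (by omega)⟩
    | coe σ =>
      have h3 : 2 ≤ σ := by exact_mod_cast hs
      obtain ⟨a, rfl⟩ : ∃ a, σ = a + 1 := ⟨σ - 1, by omega⟩
      refine ⟨a * a + 3 + 1, by omega, fun _ => ?_, h2 _ _ (by omega) (by omega)⟩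
      have h6 : a ^ (a * a + 3 + 1) < (a + 1) ^ (a * a + 3) := by
        refine Nat.lt_of_mul_lt_mul_left (a := a) (lt_of_lt_of_le ?_ (bern a _))
        calc a * a ^ (a * a + 3 + 1) = a ^ (a * a + 3) * (a * a) := by ring
          _ < _ := Nat.mul_lt_mul_of_pos_left (by omega) (pow_pos (by omega) _)
      have h7 : (a + 1 - 1) ^ (a * a + 3 + 1) < (a + 1) ^ (a * a + 3 + 1 - 1) := h6
      exact_mod_cast h7
  tfae_have 3 → 1 := by
    rintro ⟨p, hp4, hp, H⟩
    by_contra hc
    have hlt : s < h := not_le.mp hc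
    induction s using ENat.recTopCoe with
    | top => exact absurd hlt (by simp)
    | coe σ =>
      have h2 : 2 ≤ σ := by exact_mod_cast hs
      have h3 : (σ - 1) ^ p < σ ^ (p - 1) := by exact_mod_cast hp (by simp)
      have h4 : ((σ + 1 : ℕ) : ℕ∞) ≤ h := by
        push_cast
        exact Order.add_one_le_of_lt hlt
      obtain ⟨k, rfl⟩ : ∃ k, p = k + 1 := ⟨p - 1, by omega⟩
      have hk : 3 ≤ k := by omega
      rcases eq_or_lt_of_le h2 with rfl | h5
      · rcases necessity (k := k) (K := k + 1) h4 (by omega) (by omega) H with h6 | ⟨t, h6, h7⟩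
        · omega
        · obtain rfl : t = 2 * k - 2 := by omega
          rcases h7 with h7 | h7 | h7
          · have := Nat.le_of_dvd (by omega) h7
            omega
          · have := Nat.le_of_dvd (by omega) h7
            omega
          · have h8 : 2 ∣ 2 * k - 1 := Dvd.dvd.trans ⟨k - 1, by omega⟩ h7
            omega
      · obtain ⟨a, rfl⟩ : ∃ a, σ = a + 1 := ⟨σ - 1, by omega⟩
        obtain ⟨n, G, ⟨m, T, S, k1, k2, k3⟩, k4⟩ := not_incl (α := Fin (a + 1)) (k := k)
          (by rw [Fintype.card_fin]; omega) hk (by simpa using h3)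
        rw [Fintype.card_fin] at k2 k3 k4
        exact k4 h (H n G ⟨m, T, S, k1, fun w => (k2 w).trans h4, k3⟩)
  tfae_finish

end Pool.Agent.Results.MP_ebe746_co.DegreeDichotomy
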