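import Pool.Agent.P.MP_ebe746_co.ClNec2
import Pool.Agent.P.MP_ebe746_co.ClSuff

namespace Pool.Agent.Results.MP_ebe746_co.PathClassification
open Pool.Agent.P.MP_ebe746_co.Cl

theorem result (h : ℕ∞) (hh : 3 ≤ h) (p p' : ℕ) (hp : 2 ≤ p) (hp' : 2 ≤ p') :
    (∀ (n : ℕ) (G : SimpleGraph (Fin n)), HasRep h 2 p G → HasRep h 2 p' G) ↔
      (3 * p - 3 ≤ p' ∨ (3 * p - 3 - p') ∣ (p - 2) ∨ (3 * p - 3 - p') ∣ (p - 1) ∨
        (3 * p - 3 - p') ∣ (2 * p - 3)) := by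
  obtain ⟨k, rfl⟩ : ∃ k, p = k + 1 := ⟨p - 1, by omega⟩
  obtain ⟨K, rfl⟩ : ∃ K, p' = K + 1 := ⟨p' - 1, by omega⟩
  have e1 : k + 1 - 2 = k - 1 := by omega
  have e2 : 2 * (k + 1) - 3 = 2 * k - 1 := by omega
  have e3 : 3 * (k + 1) - 3 = 3 * k := by omega
  rw [e1, e2, e3, Nat.add_sub_cancel]
  have hc : Cond k K ↔ (3 * k ≤ K + 1 ∨ (3 * k - (K + 1)) ∣ (k - 1) ∨ (3 * k - (K + 1)) ∣ k ∨
      (3 * k - (K + 1)) ∣ (2 * k - 1)) := by
    constructor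
    · rintro (h1 | ⟨t, h1, h2⟩)
      · exact Or.inl h1
      · obtain rfl : t = 3 * k - (K + 1) := by omega
        exact Or.inr h2
    · intro h1
      by_cases h2 : 3 * k ≤ K + 1
      · exact Or.inl h2
      · exact Or.inr ⟨3 * k - (K + 1), by omega, h1.resolve_left h2⟩
  rw [← hc]
  exact ⟨necessity hh (by omega) (by omega), fun h1 _ _ hG =>
    sufficiency (le_trans (by norm_num) hh) (by omega) (by omega) h1 hG⟩

end Pool.Agent.Results.MP_ebe746_co.PathClassification
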